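import Pool.Agent.H369.PL.Stm

/-!
# The places of the fraction field and Riemann-Roch for all divisors
-/

set_option autoImplicit false

namespace Pool.Agent.H401.PL

open Pool.Agent.TH549.CK Pool.Agent.H369.SM Pool.Agent.H369.PL IsDedekindDomain

section dedekind

variable {R : Type} [CommRing R] [IsDedekindDomain R]

/-- the ideal with the given exponents -/
noncomputable def Id (a : HeightOneSpectrum R →₀ ℕ) : Ideal R := a.prod fun v k => v.asIdeal ^ k

theorem Id_ne (a : HeightOneSpectrum R →₀ ℕ) : Id a ≠ ⊥ :=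
  Finset.prod_ne_zero_iff.2 fun v _ => pow_ne_zero _ v.ne_bot

theorem mem_Id {a : HeightOneSpectrum R →₀ ℕ} {x : R} : x ∈ Id a ↔ ∀ v, x ∈ v.asIdeal ^ a v := by
  have h := IsDedekindDomain.inf_pow_eq_prod_of_prime a.support (fun v => v.asIdeal) a
    (fun v _ => v.prime) (fun v _ w _ hvw h => hvw (HeightOneSpectrum.ext h))
  rw [Id, Finsupp.prod, ← h, Submodule.mem_finsetInf]
  constructor
  · intro hx v
    by_cases hv : v ∈ a.support
    · exact hx v hv
    · rw [Finsupp.notMem_support_iff.1 hv, pow_zero, Ideal.one_eq_top]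
      exact Submodule.mem_top
  · intro hx v _
    exact hx v

theorem exists_Id {c : R} (hc : c ≠ 0) : ∃ a : HeightOneSpectrum R →₀ ℕ,
    Ideal.span {c} = Id a ∧ ∀ v k, c ∈ v.asIdeal ^ k ↔ k ≤ a v := by
  classical
  have hc' : Ideal.span {c} ≠ 0 := by
    rw [Ne, Ideal.zero_eq_bot, Ideal.span_singleton_eq_bot]
    exact hc
  have hf : {v : HeightOneSpectrum R |
      (Associates.mk v.asIdeal).count (Associates.mk (Ideal.span {c})).factors ≠ 0}.Finite := by
    refine (Ideal.finite_factors hc').subset fun v hv => ?_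
    exact (Associates.count_ne_zero_iff_dvd hc' v.irreducible).1 hv
  let a : HeightOneSpectrum R →₀ ℕ := Finsupp.ofSupportFinite
    (fun v => (Associates.mk v.asIdeal).count (Associates.mk (Ideal.span {c})).factors) hf
  have ha : ∀ v, a v = (Associates.mk v.asIdeal).count (Associates.mk (Ideal.span {c})).factors :=
    fun v => rfl
  refine ⟨a, ?_, ?_⟩
  · ext x
    rw [mem_Id]
    have h := Ideal.iInf_maxPowDividing_eq hc'
    have h2 : x ∈ Ideal.span {c} ↔ x ∈ ⨅ v : HeightOneSpectrum R, v.maxPowDividing (Ideal.span {c}) := by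
      rw [h]
    rw [h2, Submodule.mem_iInf]
    rfl
  · intro v k
    rw [ha, ← Associates.prime_pow_dvd_iff_le (Associates.mk_ne_zero.2 hc') v.associates_irreducible,
      ← Associates.mk_pow, Associates.mk_le_mk_iff_dvd, Ideal.dvd_span_singleton]

variable {F : Type} [Field F] [IsAlgClosed F] [Algebra F R]

/-- the codimension of the ideal -/
theorem Id_codim (hq : ∀ v : HeightOneSpectrum R, FiniteDimensional F (R ⧸ v.asIdeal) ∧
    Module.finrank F (R ⧸ v.asIdeal) = 1) (a : HeightOneSpectrum R →₀ ℕ) :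
    FiniteDimensional F (R ⧸ Id a) ∧ Module.finrank F (R ⧸ Id a) = a.sum fun _ k => k := by
  classical
  induction a using Finsupp.induction with
  | zero =>
    have h0 : Id (0 : HeightOneSpectrum R →₀ ℕ) = ⊤ := by
      rw [Id, Finsupp.prod_zero_index, Ideal.one_eq_top]
    rw [h0]
    have : Subsingleton (R ⧸ (⊤ : Ideal R)) := Ideal.Quotient.subsingleton_iff.2 rfl
    exact ⟨inferInstance, by rw [Module.finrank_zero_of_subsingleton, Finsupp.sum_zero_index]⟩
  | single_add v k a hv hk ih =>
    have h1 : Id (Finsupp.single v k + a) = v.asIdeal ^ k * Id a := by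
      rw [Id, Finsupp.prod_add_index' (fun v => pow_zero _) (fun v m n => pow_add _ _ _)]
      have h2 : (Finsupp.single v k).prod (fun (v : HeightOneSpectrum R) (k : ℕ) => v.asIdeal ^ k) =
          v.asIdeal ^ k := Finsupp.prod_single_index (pow_zero _)
      rw [h2]
      rfl
    have hC : ∀ {I J : Ideal R}, I ≠ ⊥ → J ≠ ⊥ → Module.Finite F (R ⧸ I) → Module.Finite F (R ⧸ J) →
        Module.Finite F (R ⧸ (I * J)) ∧
        Module.finrank F (R ⧸ (I * J)) = Module.finrank F (R ⧸ I) + Module.finrank F (R ⧸ J) :=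
      fun {I J} hI hJ _ _ => finrank_quot_mul (K := F) hI hJ
    obtain ⟨h2, h3⟩ := P25.quot_pow (K := F) hC v.ne_bot (hq v).1 k
    obtain ⟨h4, h5⟩ := hC (pow_ne_zero k v.ne_bot) (Id_ne a) h2 ih.1
    rw [h1]
    refine ⟨h4, ?_⟩
    rw [h5, h3, ih.2, (hq v).2, Finsupp.sum_add_index' (fun _ => rfl) (fun _ _ _ => rfl),
      Finsupp.sum_single_index rfl, mul_one]

end dedekind

theorem finrank_eq_of {k A B : Type} [Field k] [AddCommGroup A] [AddCommGroup B] [Module k A]
    [Module k B] (φ : A →ₗ[k] B) (hφ : Function.Injective φ) (V : Submodule k A)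
    (W : Submodule k B) (h1 : ∀ v ∈ V, φ v ∈ W) (h2 : ∀ w ∈ W, ∃ v ∈ V, φ v = w) :
    Module.finrank k V = Module.finrank k W := by
  have h : V.map φ = W := by
    ext w
    rw [Submodule.mem_map]
    constructor
    · rintro ⟨v, hv, rfl⟩
      exact h1 v hv
    · intro hw
      exact h2 w hw
  rw [← h]
  exact (Submodule.equivMapOfInjective φ hφ V).finrank_eq

/-- vanishing of the coefficients below `m` -/
theorem coeff_iff {F : Type} [Field F] {z : LaurentSeries F} (hz : z ≠ 0) (m : ℤ) :
    (∀ k < m, z.coeff k = 0) ↔ m ≤ z.order := by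
  constructor
  · intro h
    by_contra hlt
    exact HahnSeries.coeff_order_eq_zero.not.2 hz (h _ (not_le.1 hlt))
  · intro h k hk
    exact HahnSeries.coeff_eq_zero_of_lt_order (lt_of_lt_of_le hk h)

/-- the Laurent series of a power series -/
noncomputable def lau (F : Type) [Field F] : PowerSeries F →+* LaurentSeries F :=
  HahnSeries.ofPowerSeries ℤ F

theorem coeff_lau {F : Type} [Field F] (y : PowerSeries F) (i : ℤ) :
    (lau F y).coeff i = if i < 0 then 0 else PowerSeries.coeff i.natAbs y :=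
  PowerSeries.coeff_coe y i

theorem lau_iff {F : Type} [Field F] (y : PowerSeries F) (k : ℕ) :
    (∀ l < k, PowerSeries.coeff l y = 0) ↔ ∀ l < (k : ℤ), (lau F y).coeff l = 0 := by
  constructor
  · intro h l hl
    rw [coeff_lau]
    split_ifs with h0
    · rfl
    · exact h _ (by omega)
  · intro h l hl
    have := h (l : ℤ) (by omega)
    rw [coeff_lau, if_neg (by omega), Int.natAbs_natCast] at this
    exact this

theorem lau_inj (F : Type) [Field F] : Function.Injective (lau F) :=
  HahnSeries.ofPowerSeries_injective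

/-- the curve -/
noncomputable def crv {F R P : Type} [Field F] [CommRing R] [IsDomain R] [Algebra F R]
    (G : P → (R →+* LaurentSeries F)) (hG : ∀ x, Function.Injective (G x))
    (hc : ∀ x c, G x (algebraMap F R c) = HahnSeries.C c) : Crv F (FractionRing R) P where
  E x := IsFractionRing.lift (hG x)
  const x c := by
    rw [IsScalarTower.algebraMap_apply F R (FractionRing R), IsFractionRing.lift_algebraMap, hc]

theorem crv_E {F R P : Type} [Field F] [CommRing R] [IsDomain R] [Algebra F R]
    (G : P → (R →+* LaurentSeries F)) (hG : ∀ x, Function.Injective (G x))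
    (hc : ∀ x c, G x (algebraMap F R c) = HahnSeries.C c) (x : P) (r : R) :
    (crv G hG hc).E x (algebraMap R (FractionRing R) r) = G x r :=
  IsFractionRing.lift_algebraMap (hG x) r

section
variable {F R : Type} [Field F] [CommRing R] [IsDedekindDomain R] [Algebra F R]
  (C : Crv F (FractionRing R) (Option (HeightOneSpectrum R)))

theorem E_ne {x : Option (HeightOneSpectrum R)} {f : FractionRing R} (hf : f ≠ 0) :
    C.E x f ≠ 0 := (map_ne_zero (C.E x)).2 hf

theorem ord_mul {x : Option (HeightOneSpectrum R)} {f g : FractionRing R} (hf : f ≠ 0)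
    (hg : g ≠ 0) : (C.E x (f * g)).order = (C.E x f).order + (C.E x g).order := by
  rw [map_mul, HahnSeries.order_mul (E_ne C hf) (E_ne C hg)]

/-- elements of the fraction field with large orders -/
theorem reg (hB : ∀ (v : HeightOneSpectrum R) (r : R) (k : ℕ), r ≠ 0 →
      (r ∈ v.asIdeal ^ k ↔ (k : ℤ) ≤ (C.E (some v) (algebraMap R (FractionRing R) r)).order))
    {f : FractionRing R} (hf : f ≠ 0) (b : HeightOneSpectrum R →₀ ℕ)
    (hb : ∀ v, (b v : ℤ) ≤ (C.E (some v) f).order) :
    ∃ r ∈ Id b, algebraMap R (FractionRing R) r = f := by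
  obtain ⟨a, d, hd, hfad⟩ := IsFractionRing.div_surjective (A := R) f
  have hd0 : d ≠ 0 := nonZeroDivisors.ne_zero hd
  have hinj := IsFractionRing.injective R (FractionRing R)
  have hd1 : algebraMap R (FractionRing R) d ≠ 0 := fun h => hd0 (hinj (h.trans (map_zero _).symm))
  have hf1 : f * algebraMap R (FractionRing R) d = algebraMap R (FractionRing R) a := by
    rw [← hfad, div_mul_cancel₀ _ hd1]
  have ha0 : a ≠ 0 := by
    rintro rfl
    rw [map_zero] at hf1
    exact mul_ne_zero hf hd1 hf1
  have ho : ∀ v : HeightOneSpectrum R, (C.E (some v) (algebraMap R (FractionRing R) a)).order =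
      (C.E (some v) f).order + (C.E (some v) (algebraMap R (FractionRing R) d)).order := by
    intro v
    rw [← hf1, ord_mul C hf hd1]
  obtain ⟨c, hc1, hc2⟩ := exists_Id hd0
  have h1 : a ∈ Ideal.span {d} := by
    rw [hc1, mem_Id]
    intro v
    rw [hB v a _ ha0, ho]
    have h2 := (hB v d _ hd0).1 ((hc2 v (c v)).2 le_rfl)
    have h3 := hb v
    omega
  obtain ⟨r, hr⟩ := Ideal.mem_span_singleton.1 h1
  have hrf : algebraMap R (FractionRing R) r = f := by
    apply mul_right_cancel₀ hd1
    rw [hf1, hr, map_mul, mul_comm]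
  have hr0 : r ≠ 0 := by
    rintro rfl
    rw [map_zero] at hrf
    exact hf hrf.symm
  refine ⟨r, ?_, hrf⟩
  rw [mem_Id]
  intro v
  rw [hB v r _ hr0, hrf]
  exact hb v

end

section rr

variable {F : Type} [Field F] [IsAlgClosed F] [CharZero F] {R : Subalgebra F (LaurentSeries F)}

theorem Lp_iff {n : ℕ} {f : R} (hf : f ≠ 0) :
    f ∈ Lp R n ↔ -(n : ℤ) ≤ (f : LaurentSeries F).order := by
  rw [mem_Lp]
  exact coeff_iff (fun h0 => hf (Subtype.ext h0)) _

theorem ordO_mul {f g : R} (hf : f ≠ 0) (hg : g ≠ 0) :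
    ((f * g : R) : LaurentSeries F).order =
      (f : LaurentSeries F).order + (g : LaurentSeries F).order :=
  HahnSeries.order_mul (fun h0 => hf (Subtype.ext h0)) (fun h0 => hg (Subtype.ext h0))

theorem ordH : P25.Ord (K := F) (A := R) (fun x => (x : LaurentSeries F).order) (Lp R) where
  mul := fun _ _ hx hy => ordO_mul hx hy
  mem := fun _ _ hx => Lp_iff hx

/-- the degree of a function is the codimension of the ideal it generates -/
theorem deg_eq (h1 : S_codim) (hR : IsSmoothCurve R 1) {c : R} (hc : c ≠ 0) :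
    (c : LaurentSeries F).order = -(Module.finrank F (R ⧸ Ideal.span {c}) : ℤ) := by
  obtain ⟨m, hm⟩ := P25.exists_deg (K := F) ordH hR.genus hc
  have hsp : Ideal.span {c} ≠ ⊥ := by
    rw [Ne, Ideal.span_singleton_eq_bot]
    exact hc
  obtain ⟨-, h2⟩ := h1 F R hR (Ideal.span {c}) hsp
  set q := Module.finrank F (R ⧸ Ideal.span {c}) with hq
  clear_value q
  have h3 := h2 (m + q + 1) (by omega)
  have h4 : Module.finrank F (Lp R (q + 1)) =
      Module.finrank F ↥(Lp R (m + q + 1) ⊓ (Ideal.span {c}).restrictScalars F) := by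
    refine finrank_eq_of (LinearMap.mulLeft F c) (fun x y hxy => mul_left_cancel₀ hc hxy) _ _ ?_ ?_
    · intro v hv
      refine ⟨?_, Ideal.mul_mem_right _ _ (Ideal.mem_span_singleton_self c)⟩
      have h5 : v * c ∈ Lp R (q + 1 + m) :=
        P25.L_mul (K := F) ordH hv ((Lp_iff hc).2 (by rw [hm]))
      rw [LinearMap.mulLeft_apply, mul_comm c v]
      have h6 : m + q + 1 = q + 1 + m := by omega
      rw [h6]
      exact h5
    · rintro w ⟨hw1, hw2⟩
      obtain ⟨y, rfl⟩ := Ideal.mem_span_singleton.1 hw2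
      refine ⟨y, ?_, rfl⟩
      by_cases hy : y = 0
      · rw [hy]; exact zero_mem _
      have h5 := (Lp_iff (mul_ne_zero hc hy)).1 hw1
      rw [ordO_mul hc hy, hm] at h5
      rw [Lp_iff hy]
      push_cast at h5 ⊢
      omega
  rw [hR.genus (q + 1) (by omega), h3] at h4
  rw [hm]
  omega

/-- Riemann-Roch for all divisors -/
theorem rr (h1 : S_codim) (hR : IsSmoothCurve R 1) [IsDedekindDomain R]
    (C : Crv F (FractionRing R) (Option (HeightOneSpectrum R)))
    (hB : ∀ (v : HeightOneSpectrum R) (r : R) (k : ℕ), r ≠ 0 →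
      (r ∈ v.asIdeal ^ k ↔ (k : ℤ) ≤ (C.E (some v) (algebraMap R (FractionRing R) r)).order))
    (hO : ∀ r : R, C.E none (algebraMap R (FractionRing R) r) = (r : LaurentSeries F))
    (hq : ∀ v : HeightOneSpectrum R, FiniteDimensional F (R ⧸ v.asIdeal) ∧
      Module.finrank F (R ⧸ v.asIdeal) = 1) : C.RR 1 := by
  intro D hD
  have hinj := IsFractionRing.injective R (FractionRing R)
  have hne : ∀ {r : R}, r ≠ 0 → algebraMap R (FractionRing R) r ≠ 0 :=
    fun {r} hr h => hr (hinj (h.trans (map_zero _).symm))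
  -- the function `c`
  let dp : HeightOneSpectrum R →₀ ℕ := D.some.mapRange Int.toNat rfl
  have hdp : ∀ v, dp v = (D (some v)).toNat := fun v => rfl
  obtain ⟨c, hc, hc0⟩ := Submodule.exists_mem_ne_zero_of_ne_bot (Id_ne dp)
  obtain ⟨a, ha1, ha2⟩ := exists_Id hc0
  have hda : ∀ v, D (some v) ≤ (a v : ℤ) := by
    intro v
    have h2 := (ha2 v _).1 (mem_Id.1 hc v)
    rw [hdp] at h2
    have := Int.self_le_toNat (D (some v))
    omega
  have hca : ∀ v : HeightOneSpectrum R,
      (C.E (some v) (algebraMap R (FractionRing R) c)).order = (a v : ℤ) := by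
    intro v
    have h2 := (hB v c (a v) hc0).1 ((ha2 v _).2 le_rfl)
    apply le_antisymm _ h2
    by_contra hlt
    rw [not_le] at hlt
    have h3 := (ha2 v _).1 ((hB v c (a v + 1) hc0).2 (by push_cast; omega))
    omega
  have hcO : (C.E none (algebraMap R (FractionRing R) c)).order =
      -((a.sum fun _ k => k : ℕ) : ℤ) := by
    rw [hO, deg_eq h1 hR hc0, ha1, (Id_codim hq a).2]
  -- the exponents of `I`
  let b : HeightOneSpectrum R →₀ ℕ :=
    (a.mapRange (fun k : ℕ => (k : ℤ)) rfl - D.some).mapRange Int.toNat rfl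
  have hb : ∀ v, (b v : ℤ) = (a v : ℤ) - D (some v) := by
    intro v
    have h2 : b v = ((a v : ℤ) - D (some v)).toNat := rfl
    rw [h2]
    have := hda v
    omega
  have hsb : ((b.sum fun _ k => k : ℕ) : ℤ) =
      ((a.sum fun _ k => k : ℕ) : ℤ) - D.some.sum fun _ k => k := by
    have h2 : b.mapRange (fun k : ℕ => (k : ℤ)) rfl =
        a.mapRange (fun k : ℕ => (k : ℤ)) rfl - D.some := by
      ext v
      exact hb v
    have h3 : ∀ e : HeightOneSpectrum R →₀ ℕ, ((e.sum fun _ k => k : ℕ) : ℤ) =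
        (e.mapRange (fun k : ℕ => (k : ℤ)) rfl).sum fun _ k => k := by
      intro e
      rw [Finsupp.sum_mapRange_index (fun _ => rfl), Finsupp.sum, Finsupp.sum, Nat.cast_sum]
    rw [h3, h3, h2, Finsupp.sum_sub_index (fun _ _ _ => rfl)]
  have hsD : (D.sum fun _ k => k) = D none + D.some.sum fun _ k => k :=
    Finsupp.sum_option_index D _ (fun _ => rfl) (fun _ _ _ => rfl)
  rw [hsD] at hD ⊢
  set sa := (a.sum fun _ k => k : ℕ) with hsa
  set sb := (b.sum fun _ k => k : ℕ) with hsb'
  set sd := D.some.sum fun _ k => k with hsd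
  clear_value sa sb sd
  obtain ⟨N, hN⟩ : ∃ N : ℕ, (N : ℤ) = D none + sa := ⟨(D none + sa).toNat, by omega⟩
  obtain ⟨-, h2⟩ := h1 F R hR (Id b) (Id_ne b)
  rw [(Id_codim hq b).2, ← hsb'] at h2
  have h3 := h2 N (by omega)
  -- multiplication by `c⁻¹`
  let φ : R →ₗ[F] FractionRing R :=
    (LinearMap.mulRight F (algebraMap R (FractionRing R) c)⁻¹) ∘ₗ
      (IsScalarTower.toAlgHom F R (FractionRing R)).toLinearMap
  have hφ : ∀ r, φ r = algebraMap R (FractionRing R) r * (algebraMap R (FractionRing R) c)⁻¹ :=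
    fun r => rfl
  have hφc : ∀ r, φ r * algebraMap R (FractionRing R) c = algebraMap R (FractionRing R) r := by
    intro r
    rw [hφ, mul_assoc, inv_mul_cancel₀ (hne hc0), mul_one]
  have hφi : Function.Injective φ := by
    intro x y hxy
    apply hinj
    rw [← hφc x, ← hφc y, hxy]
  have h4 : Module.finrank F ↥(Lp R N ⊓ (Id b).restrictScalars F) =
      Module.finrank F ↥(C.L D) := by
    refine finrank_eq_of φ hφi _ _ ?_ ?_
    · rintro r ⟨hr1, hr2⟩
      by_cases hr : r = 0
      · rw [hr, map_zero]; exact zero_mem _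
      have hφr : φ r ≠ 0 := fun h => hr (hφi (h.trans (map_zero φ).symm))
      have ho : ∀ x, (C.E x (algebraMap R (FractionRing R) r)).order =
          (C.E x (φ r)).order + (C.E x (algebraMap R (FractionRing R) c)).order := by
        intro x
        rw [← hφc r, ord_mul C hφr (hne hc0)]
      rw [Crv.mem_L]
      intro x
      rw [coeff_iff (E_ne C hφr)]
      cases x with
      | none =>
        have h5 := ho none
        rw [hO, hcO] at h5
        have h6 := (Lp_iff hr).1 hr1
        omega
      | some v =>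
        have h5 := ho (some v)
        rw [hca] at h5
        have h6 := (hB v r _ hr).1 (mem_Id.1 hr2 v)
        have h7 := hb v
        omega
    · intro f hf
      by_cases hf0 : f = 0
      · exact ⟨0, zero_mem _, by rw [hf0, map_zero]⟩
      rw [Crv.mem_L] at hf
      have h5 : ∀ x, -(D x) ≤ (C.E x f).order := fun x => (coeff_iff (E_ne C hf0) _).1 (hf x)
      have ho : ∀ x, (C.E x (f * algebraMap R (FractionRing R) c)).order =
          (C.E x f).order + (C.E x (algebraMap R (FractionRing R) c)).order :=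
        fun x => ord_mul C hf0 (hne hc0)
      have hfc : f * algebraMap R (FractionRing R) c ≠ 0 := mul_ne_zero hf0 (hne hc0)
      obtain ⟨r, hr1, hr2⟩ := reg C hB hfc b (by
        intro v
        rw [ho, hca, hb]
        have := h5 (some v)
        omega)
      have hr0 : r ≠ 0 := by
        rintro rfl
        rw [map_zero] at hr2
        exact hfc hr2.symm
      refine ⟨r, ⟨?_, hr1⟩, ?_⟩
      · rw [SetLike.mem_coe, Lp_iff hr0, ← hO, hr2, ho, hcO]
        have := h5 none
        omega
      · rw [hφ, hr2, mul_assoc, mul_inv_cancel₀ (hne hc0), mul_one]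
  rw [← h4, h3]
  push_cast
  omega

end rr

/-- the expansions at all the maximal ideals -/
theorem exists_exp (h2 : S_exp) {F R ι : Type} [Field F] [IsAlgClosed F] [CommRing R]
    [IsDedekindDomain R] [Algebra F R] [Algebra.FiniteType F R]
    (e : ι → (R →+* PowerSeries F)) (he : ∀ x, Unif (e x)) (hne : ∀ x, ctr (e x) ≠ ⊥)
    (hinj : Function.Injective fun x => ctr (e x)) :
    ∃ (E : HeightOneSpectrum R → (R →+* PowerSeries F)) (nd : ι → HeightOneSpectrum R),
      (∀ v, Unif (E v)) ∧ (∀ v, ctr (E v) = v.asIdeal) ∧ Function.Injective nd ∧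
      ∀ x, E (nd x) = e x := by
  classical
  have hp : ∀ x, (ctr (e x)).IsPrime := fun x => RingHom.ker_isPrime _
  let nd : ι → HeightOneSpectrum R := fun x => ⟨ctr (e x), hp x, hne x⟩
  have hnd : Function.Injective nd := fun x y hxy => hinj (congrArg HeightOneSpectrum.asIdeal hxy)
  have key : ∀ v : HeightOneSpectrum R, ∃ E : R →+* PowerSeries F, Unif E ∧ ctr E = v.asIdeal ∧
      ∀ x, nd x = v → E = e x := by
    intro v
    by_cases hv : ∃ x, nd x = v
    · obtain ⟨x, hx⟩ := hv
      refine ⟨e x, he x, congrArg HeightOneSpectrum.asIdeal hx, fun y hy => ?_⟩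
      rw [hnd (hx.trans hy.symm)]
    · obtain ⟨E, hE1, hE2⟩ := h2 F R v.asIdeal v.isMaximal v.ne_bot
      exact ⟨E, hE1, hE2, fun x hx => absurd ⟨x, hx⟩ hv⟩
  choose E hE1 hE2 hE3 using key
  exact ⟨E, nd, hE1, hE2, hnd, fun x => hE3 (nd x) x rfl⟩

/-- the residue fields -/
theorem residue {F : Type} [Field F] [IsAlgClosed F] [CharZero F]
    {R : Subalgebra F (LaurentSeries F)} [IsDedekindDomain R] (h1 : S_codim)
    (hR : IsSmoothCurve R 1) (v : HeightOneSpectrum R) :
    FiniteDimensional F (R ⧸ v.asIdeal) ∧ Module.finrank F (R ⧸ v.asIdeal) = 1 := by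
  have hf := (h1 F R hR v.asIdeal v.ne_bot).1
  refine ⟨hf, ?_⟩
  have hm := v.isMaximal
  have hi : Algebra.IsIntegral F (R ⧸ v.asIdeal) := Algebra.IsIntegral.of_finite F _
  have hdom : IsDomain (R ⧸ v.asIdeal) := Ideal.Quotient.isDomain _
  have hb : Function.Bijective (algebraMap F (R ⧸ v.asIdeal)) :=
    IsAlgClosed.algebraMap_bijective_of_isIntegral
  have e : F ≃ₗ[F] (R ⧸ v.asIdeal) := LinearEquiv.ofBijective (Algebra.linearMap F _) hb
  rw [← e.finrank_eq, Module.finrank_self]

theorem inj_of (h3 : S_ord) {F R : Type} [Field F] [CommRing R] [IsDedekindDomain R] [Algebra F R]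
    (E : R →+* PowerSeries F) (hE : Unif E) (v : HeightOneSpectrum R) (hv : ctr E = v.asIdeal) :
    Function.Injective E := by
  rw [injective_iff_map_eq_zero]
  intro f hf
  have h : f ∈ ⨅ i : ℕ, v.asIdeal ^ i := by
    rw [Submodule.mem_iInf]
    intro k
    rw [← hv, ← h3 F R E hE (by rw [hv]; exact v.ne_bot) k f]
    intro l _
    rw [hf, map_zero]
  rw [Ideal.iInf_pow_eq_bot_of_isDomain _ v.isPrime.ne_top] at h
  exact h

theorem pl (h1 : S_codim) (h2 : S_exp) (h3 : S_ord) : S_PL := by
  intro F _ _ _ R hR ι _ e he hne hinj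
  obtain ⟨hded, hft⟩ := dedekind_of_smooth hR
  obtain ⟨E, nd, hE1, hE2, hnd, hnd2⟩ := exists_exp h2 e he hne hinj
  have hEi : ∀ v, Function.Injective (E v) := fun v => inj_of h3 (E v) (hE1 v) v (hE2 v)
  let G : Option (HeightOneSpectrum R) → (R →+* LaurentSeries F) := fun x =>
    match x with
    | none => R.val.toRingHom
    | some v => (lau F).comp (E v)
  have hG : ∀ x, Function.Injective (G x) := by
    intro x
    cases x with
    | none => exact Subtype.val_injective
    | some v => exact (lau_inj F).comp (hEi v)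
  have hc : ∀ x c, G x (algebraMap F R c) = HahnSeries.C c := by
    intro x c
    cases x with
    | none => exact LaurentSeries.algebraMap_apply F c
    | some v =>
      change lau F (E v (algebraMap F R c)) = _
      rw [(hE1 v).const]
      exact HahnSeries.ofPowerSeries_C c
  have hGs : ∀ (v : HeightOneSpectrum R) (r : R),
      (crv G hG hc).E (some v) (algebraMap R (FractionRing R) r) = lau F (E v r) :=
    fun v r => crv_E G hG hc (some v) r
  have hGn : ∀ r : R, (crv G hG hc).E none (algebraMap R (FractionRing R) r) =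
      (r : LaurentSeries F) := fun r => crv_E G hG hc none r
  have hB : ∀ (v : HeightOneSpectrum R) (r : R) (k : ℕ), r ≠ 0 → (r ∈ v.asIdeal ^ k ↔
      (k : ℤ) ≤ ((crv G hG hc).E (some v) (algebraMap R (FractionRing R) r)).order) := by
    intro v r k hr
    have h0 : lau F (E v r) ≠ 0 := by
      intro h
      exact hr (hEi v ((lau_inj F (h.trans (map_zero _).symm)).trans (map_zero _).symm))
    rw [hGs, ← coeff_iff h0, ← lau_iff, ← hE2 v]
    exact (h3 F R (E v) (hE1 v) (by rw [hE2 v]; exact v.ne_bot) k r).symm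
  refine ⟨Option (HeightOneSpectrum R), crv G hG hc, none, fun x => some (nd x),
    fun x y hxy => hnd (Option.some_injective _ hxy), fun x h => Option.some_ne_none _ h,
    rr h1 hR _ hB hGn (residue h1 hR), hGn, ?_, ?_⟩
  · intro x f
    rw [hGs, hnd2]
    rfl
  · intro f hf
    by_cases hf0 : f = 0
    · exact ⟨0, by rw [hf0, map_zero]⟩
    obtain ⟨r, -, hr⟩ := reg (crv G hG hc) hB hf0 0 (fun v => by
      have h4 := (coeff_iff (E_ne (crv G hG hc) hf0) 0).1
        (fun k hk => hf (some v) (Option.some_ne_none v) k hk)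
      rw [Finsupp.coe_zero, Pi.zero_apply]
      exact_mod_cast h4)
    exact ⟨r, hr⟩

end Pool.Agent.H401.PL
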